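import Pool.Agent.Lib_helper15.RankOne.DefsT

/-!
# Rank one perturbations, module T1: smooth cut-off vanishing on a list of discs
-/

set_option autoImplicit false

open MeasureTheory Metric Set

namespace Pool.Agent.RankOne.T1aux

/-- the standard bump: `1` on the unit disc, support in the disc of radius `2` -/
noncomputable def b0 : ContDiffBump (0 : ℂ) := ⟨1, 2, one_pos, one_lt_two⟩

lemma exists_bound : ∃ K : ℝ, 0 < K ∧ ∀ z : ℂ, ‖fderiv ℝ (b0 : ℂ → ℝ) z‖ ≤ K := by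
  have h1 : Continuous (fderiv ℝ (b0 : ℂ → ℝ)) :=
    (b0.contDiff (n := 1)).continuous_fderiv one_ne_zero
  have h2 : HasCompactSupport (fderiv ℝ (b0 : ℂ → ℝ)) := b0.hasCompactSupport.fderiv (𝕜 := ℝ)
  obtain ⟨C, hC⟩ := h2.exists_bound_of_continuous h1
  exact ⟨max C 1, lt_max_of_lt_right one_pos, fun z => (hC z).trans (le_max_left _ _)⟩

/-- the factor of one disc -/
noncomputable def fac (c : ℂ) (r : ℝ) (z : ℂ) : ℂ := ((1 - b0 ((r⁻¹ : ℝ) • (z - c)) : ℝ) : ℂ)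

lemma fac_contDiff (c : ℂ) (r : ℝ) : ContDiff ℝ 1 (fac c r) := by
  have h : ContDiff ℝ 1 (fun z : ℂ => (1 - b0 ((r⁻¹ : ℝ) • (z - c)) : ℝ)) :=
    contDiff_const.sub (b0.contDiff.comp ((contDiff_id.sub contDiff_const).const_smul _))
  exact Complex.ofRealCLM.contDiff.comp h

lemma fac_norm (c : ℂ) (r : ℝ) (z : ℂ) : ‖fac c r z‖ ≤ 1 := by
  unfold fac
  rw [Complex.norm_real, Real.norm_eq_abs, abs_le]
  have h0 : 0 ≤ b0 ((r⁻¹ : ℝ) • (z - c)) := b0.nonneg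
  have h1 : b0 ((r⁻¹ : ℝ) • (z - c)) ≤ 1 := b0.le_one
  constructor <;> linarith

lemma fac_zero {c : ℂ} {r : ℝ} (hr : 0 < r) {z : ℂ} (hz : z ∈ ball c r) : fac c r z = 0 := by
  unfold fac
  have : b0 ((r⁻¹ : ℝ) • (z - c)) = 1 := by
    apply b0.one_of_mem_closedBall
    rw [mem_closedBall_zero_iff, norm_smul, Real.norm_eq_abs, abs_inv, abs_of_pos hr]
    rw [mem_ball, dist_eq_norm] at hz
    change r⁻¹ * ‖z - c‖ ≤ 1
    rw [inv_mul_le_iff₀ hr]; linarith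
  rw [this]; simp

lemma fac_one {c : ℂ} {r : ℝ} (hr : 0 < r) {z : ℂ} (hz : z ∉ closedBall c (2 * r)) :
    fac c r z = 1 := by
  unfold fac
  have : b0 ((r⁻¹ : ℝ) • (z - c)) = 0 := by
    apply b0.zero_of_le_dist
    rw [dist_zero_right, norm_smul, Real.norm_eq_abs, abs_inv, abs_of_pos hr]
    rw [mem_closedBall, dist_eq_norm, not_le] at hz
    change 2 ≤ r⁻¹ * ‖z - c‖
    rw [le_inv_mul_iff₀ hr]; linarith
  rw [this]; simp

lemma dbar_mul {f g : ℂ → ℂ} (hf : ContDiff ℝ 1 f) (hg : ContDiff ℝ 1 g) (z : ℂ) :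
    dbar (fun w => f w * g w) z = f z * dbar g z + g z * dbar f z := by
  have hf' : DifferentiableAt ℝ f z := (hf.differentiable one_ne_zero) z
  have hg' : DifferentiableAt ℝ g z := (hg.differentiable one_ne_zero) z
  unfold dbar
  rw [fderiv_fun_mul hf' hg']
  simp only [_root_.add_apply, _root_.smul_apply, smul_eq_mul]
  ring

lemma dbar_le (f : ℂ → ℂ) (z : ℂ) : ‖dbar f z‖ ≤ ‖fderiv ℝ f z‖ := by
  unfold dbar
  have h1 : ‖fderiv ℝ f z 1‖ ≤ ‖fderiv ℝ f z‖ := by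
    simpa using (fderiv ℝ f z).le_opNorm 1
  have h2 : ‖fderiv ℝ f z Complex.I‖ ≤ ‖fderiv ℝ f z‖ := by
    simpa using (fderiv ℝ f z).le_opNorm Complex.I
  calc ‖(1 / 2 : ℂ) * (fderiv ℝ f z 1 + Complex.I * fderiv ℝ f z Complex.I)‖
      = (1 / 2) * ‖fderiv ℝ f z 1 + Complex.I * fderiv ℝ f z Complex.I‖ := by
        rw [norm_mul]; norm_num
    _ ≤ (1 / 2) * (‖fderiv ℝ f z 1‖ + ‖Complex.I * fderiv ℝ f z Complex.I‖) := by
        gcongr; exact norm_add_le _ _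
    _ ≤ (1 / 2) * (‖fderiv ℝ f z‖ + ‖fderiv ℝ f z‖) := by
        rw [norm_mul, Complex.norm_I, one_mul]; gcongr
    _ = ‖fderiv ℝ f z‖ := by ring

lemma fac_fderiv (c : ℂ) {r : ℝ} (z : ℂ) :
    ‖fderiv ℝ (fac c r) z‖ ≤ |r⁻¹| * ‖fderiv ℝ (b0 : ℂ → ℝ) ((r⁻¹ : ℝ) • (z - c))‖ := by
  have hb : DifferentiableAt ℝ (b0 : ℂ → ℝ) ((r⁻¹ : ℝ) • (z - c)) :=
    ((b0.contDiff (n := 1)).differentiable one_ne_zero) _
  have hin : HasFDerivAt (fun z : ℂ => (r⁻¹ : ℝ) • (z - c))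
      ((r⁻¹ : ℝ) • (ContinuousLinearMap.id ℝ ℂ)) z :=
    ((hasFDerivAt_id z).sub_const c).fun_const_smul (r⁻¹ : ℝ)
  have h1 : HasFDerivAt (fun z : ℂ => (1 - b0 ((r⁻¹ : ℝ) • (z - c)) : ℝ))
      (-((fderiv ℝ (b0 : ℂ → ℝ) ((r⁻¹ : ℝ) • (z - c))).comp
        ((r⁻¹ : ℝ) • (ContinuousLinearMap.id ℝ ℂ)))) z :=
    (hb.hasFDerivAt.comp z hin).const_sub 1
  have h2 : HasFDerivAt (fac c r) (Complex.ofRealCLM.comp
      (-((fderiv ℝ (b0 : ℂ → ℝ) ((r⁻¹ : ℝ) • (z - c))).comp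
        ((r⁻¹ : ℝ) • (ContinuousLinearMap.id ℝ ℂ))))) z :=
    Complex.ofRealCLM.hasFDerivAt.comp z h1
  rw [h2.fderiv]
  refine ContinuousLinearMap.opNorm_le_bound _ (by positivity) fun v => ?_
  simp only [ContinuousLinearMap.comp_apply, _root_.neg_apply,
    _root_.smul_apply, ContinuousLinearMap.id_apply, Complex.ofRealCLM_apply]
  rw [Complex.norm_real, norm_neg]
  calc ‖fderiv ℝ (b0 : ℂ → ℝ) ((r⁻¹ : ℝ) • (z - c)) ((r⁻¹ : ℝ) • v)‖
      ≤ ‖fderiv ℝ (b0 : ℂ → ℝ) ((r⁻¹ : ℝ) • (z - c))‖ * ‖(r⁻¹ : ℝ) • v‖ :=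
        ContinuousLinearMap.le_opNorm _ _
    _ = |r⁻¹| * ‖fderiv ℝ (b0 : ℂ → ℝ) ((r⁻¹ : ℝ) • (z - c))‖ * ‖v‖ := by
        rw [norm_smul, Real.norm_eq_abs]; ring

lemma fac_dbar_zero {c : ℂ} {r : ℝ} (hr : 0 < r) {z : ℂ} (hz : z ∉ closedBall c (2 * r)) :
    dbar (fac c r) z = 0 := by
  have hev : fac c r =ᶠ[nhds z] fun _ => (1 : ℂ) := by
    filter_upwards [isClosed_closedBall.isOpen_compl.mem_nhds hz] with w hw
    exact fac_one hr hw
  unfold dbar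
  rw [hev.fderiv_eq]
  simp

end Pool.Agent.RankOne.T1aux

namespace Pool.Agent.RankOne

open T1aux

theorem T1 : T1_Stmt := by
  obtain ⟨K, hK, hb⟩ := exists_bound
  refine ⟨K, hK, ?_⟩
  intro Ds
  induction Ds with
  | nil =>
    intro _
    refine ⟨fun _ => 1, contDiff_const, by simp, by simp, by simp, ?_⟩
    intro z
    have : dbar (fun _ : ℂ => (1 : ℂ)) z = 0 := by unfold dbar; simp
    rw [this]; simp
  | cons D Ds ih =>
    intro hD
    obtain ⟨ψ, h1, h2, h3, h4, h5⟩ := ih (fun D' hD' => hD D' (List.mem_cons_of_mem _ hD'))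
    have hr : 0 < D.2 := hD D List.mem_cons_self
    refine ⟨fun z => fac D.1 D.2 z * ψ z, (fac_contDiff _ _).mul h1, ?_, ?_, ?_, ?_⟩
    · intro z
      rw [norm_mul]
      exact mul_le_one₀ (fac_norm _ _ _) (norm_nonneg _) (h2 z)
    · intro D' hD' z hz
      rcases List.mem_cons.1 hD' with rfl | hD'
      · simp only [fac_zero hr hz, zero_mul]
      · simp only [h3 D' hD' z hz, mul_zero]
    · intro z hz
      have ha : fac D.1 D.2 z = 1 := fac_one hr (hz D List.mem_cons_self)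
      have hb' : ψ z = 1 := h4 z (fun D' hD' => hz D' (List.mem_cons_of_mem _ hD'))
      simp only [ha, hb', one_mul]
    · intro z
      rw [dbar_mul (fac_contDiff _ _) h1, List.map_cons, List.sum_cons]
      have e1 : ‖fac D.1 D.2 z * dbar ψ z‖ ≤
          (Ds.map (fun D => (closedBall D.1 (2 * D.2)).indicator (fun _ => K / D.2) z)).sum := by
        rw [norm_mul]
        calc ‖fac D.1 D.2 z‖ * ‖dbar ψ z‖ ≤ 1 * ‖dbar ψ z‖ := by
              gcongr; exact fac_norm _ _ _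
          _ ≤ _ := by rw [one_mul]; exact h5 z
      have e2 : ‖ψ z * dbar (fac D.1 D.2) z‖ ≤
          (closedBall D.1 (2 * D.2)).indicator (fun _ => K / D.2) z := by
        by_cases hz : z ∈ closedBall D.1 (2 * D.2)
        · rw [indicator_of_mem hz, norm_mul]
          calc ‖ψ z‖ * ‖dbar (fac D.1 D.2) z‖ ≤ 1 * ‖dbar (fac D.1 D.2) z‖ := by
                gcongr; exact h2 z
            _ ≤ ‖fderiv ℝ (fac D.1 D.2) z‖ := by rw [one_mul]; exact dbar_le _ _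
            _ ≤ |D.2⁻¹| * ‖fderiv ℝ (b0 : ℂ → ℝ) ((D.2⁻¹ : ℝ) • (z - D.1))‖ := fac_fderiv _ _
            _ ≤ |D.2⁻¹| * K := by gcongr; exact hb _
            _ = K / D.2 := by
                rw [abs_of_pos (inv_pos.2 hr)]; field_simp
        · rw [indicator_of_notMem hz, fac_dbar_zero hr hz]; simp
      calc ‖fac D.1 D.2 z * dbar ψ z + ψ z * dbar (fac D.1 D.2) z‖
          ≤ ‖fac D.1 D.2 z * dbar ψ z‖ + ‖ψ z * dbar (fac D.1 D.2) z‖ := norm_add_le _ _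
        _ ≤ _ := by linarith
 
end Pool.Agent.RankOne
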