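import Pool.Agent.Lib_helper15.RankOne.DefsT

/-!
# Rank one perturbations, module T2: packing of separated sets
-/

set_option autoImplicit false

open MeasureTheory Metric Set

namespace Pool.Agent.RankOne.T2aux

/-- the standard kernel -/
noncomputable def ker (u : ℂ) : ℝ := (1 + ‖u‖) ^ (-(3 : ℝ))

lemma ker_nonneg (u : ℂ) : 0 ≤ ker u := by unfold ker; positivity

lemma ker_integrable : Integrable ker := by
  have h : ((Module.finrank ℝ ℂ : ℕ) : ℝ) < 3 := by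
    rw [Complex.finrank_real_complex]; norm_num
  exact integrable_one_add_norm h

/-- scaled kernel -/
noncomputable def gk (w : ℂ) (R : ℝ) (z : ℂ) : ℝ := ker ((R⁻¹ : ℝ) • (z - w))

lemma gk_nonneg (w : ℂ) (R : ℝ) (z : ℂ) : 0 ≤ gk w R z := ker_nonneg _

lemma gk_integrable (w : ℂ) {R : ℝ} (hR : 0 < R) : Integrable (gk w R) := by
  have h1 : Integrable (fun z : ℂ => ker ((R⁻¹ : ℝ) • z)) :=
    ker_integrable.comp_smul (inv_ne_zero hR.ne')
  exact h1.comp_sub_right w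

lemma gk_integral (w : ℂ) {R : ℝ} (hR : 0 < R) : ∫ z, gk w R z = R ^ 2 * ∫ u, ker u := by
  have h1 : ∫ z, gk w R z = ∫ z, ker ((R⁻¹ : ℝ) • z) :=
    integral_sub_right_eq_self (fun z : ℂ => ker ((R⁻¹ : ℝ) • z)) w
  rw [h1, Measure.integral_comp_inv_smul, Complex.finrank_real_complex, abs_of_nonneg (by positivity)]
  rfl

lemma vol_ball (a : ℂ) {r : ℝ} (hr : 0 ≤ r) : volume.real (ball a r) = Real.pi * r ^ 2 := by
  rw [Measure.real, Complex.volume_ball, ENNReal.toReal_mul, ENNReal.toReal_pow,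
    ENNReal.toReal_ofReal hr]
  simp [mul_comm]

lemma term_le {h : ℝ} (hh : 0 < h) {w a z : ℂ} (hz : z ∈ ball a (h / 2)) :
    (32 * h / max (32 * h) ‖w - a‖) ^ 3 ≤ 27 * gk w (32 * h) z := by
  have hza : ‖z - a‖ < h / 2 := by simpa [dist_eq_norm] using hz
  set m : ℝ := max (32 * h) ‖w - a‖ with hm
  have hm1 : 32 * h ≤ m := le_max_left _ _
  have hm2 : ‖w - a‖ ≤ m := le_max_right _ _
  have hmpos : 0 < m := by linarith
  have hs : ‖z - w‖ ≤ m + h / 2 := by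
    have : z - w = (z - a) - (w - a) := by ring
    rw [this]
    calc ‖(z - a) - (w - a)‖ ≤ ‖z - a‖ + ‖w - a‖ := norm_sub_le _ _
      _ ≤ _ := by linarith
  have hR : (0 : ℝ) < 32 * h := by positivity
  unfold gk ker
  rw [norm_smul, Real.norm_eq_abs, abs_inv, abs_of_pos hR]
  set s : ℝ := ‖z - w‖ with hsdef
  have hs0 : 0 ≤ s := norm_nonneg _
  have hpos : 0 < 1 + (32 * h)⁻¹ * s := by positivity
  rw [Real.rpow_neg hpos.le]
  have e3 : (1 + (32 * h)⁻¹ * s) ^ (3 : ℝ) = (1 + (32 * h)⁻¹ * s) ^ 3 := by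
    rw [← Real.rpow_natCast]; norm_num
  rw [e3]
  have key : 32 * h / m ≤ 3 / (1 + (32 * h)⁻¹ * s) := by
    rw [div_le_div_iff₀ hmpos hpos]
    have : 32 * h * (1 + (32 * h)⁻¹ * s) = 32 * h + s := by field_simp
    rw [this]
    linarith
  calc (32 * h / m) ^ 3 ≤ (3 / (1 + (32 * h)⁻¹ * s)) ^ 3 :=
        pow_le_pow_left₀ (by positivity) key 3
    _ = 27 * ((1 + (32 * h)⁻¹ * s) ^ 3)⁻¹ := by rw [div_pow]; norm_num; rfl

lemma disj {h : ℝ} {N : Finset ℂ} (hN : ∀ a ∈ N, ∀ b ∈ N, a ≠ b → h ≤ ‖a - b‖) :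
    (N : Set ℂ).PairwiseDisjoint (fun a => ball a (h / 2)) := by
  intro a ha b hb hab
  apply ball_disjoint_ball
  rw [dist_eq_norm]
  have := hN a ha b hb hab
  linarith

lemma packing {h : ℝ} (hh : 0 < h) {N : Finset ℂ}
    (hN : ∀ a ∈ N, ∀ b ∈ N, a ≠ b → h ≤ ‖a - b‖) (w : ℂ) :
    ∑ a ∈ N, (32 * h / max (32 * h) ‖w - a‖) ^ 3 ≤
      27 * 1024 * 4 / Real.pi * ∫ u, ker u := by
  have hR : (0 : ℝ) < 32 * h := by positivity
  have hI := gk_integrable w hR
  have hv : 0 < Real.pi * (h / 2) ^ 2 := by positivity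
  have h1 : ∀ a ∈ N, (Real.pi * (h / 2) ^ 2) * (32 * h / max (32 * h) ‖w - a‖) ^ 3 ≤
      ∫ z in ball a (h / 2), 27 * gk w (32 * h) z := by
    intro a _
    have e : (Real.pi * (h / 2) ^ 2) * (32 * h / max (32 * h) ‖w - a‖) ^ 3 =
        ∫ _z in ball a (h / 2), (32 * h / max (32 * h) ‖w - a‖) ^ 3 := by
      rw [setIntegral_const, vol_ball a (by positivity), smul_eq_mul]
    rw [e]
    apply setIntegral_mono_on
    · exact integrableOn_const (by rw [Complex.volume_ball]; finiteness)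
    · exact (hI.const_mul 27).integrableOn
    · exact measurableSet_ball
    · intro z hz; exact term_le hh hz
  have h2 : ∑ a ∈ N, ∫ z in ball a (h / 2), 27 * gk w (32 * h) z =
      ∫ z in ⋃ a ∈ N, ball a (h / 2), 27 * gk w (32 * h) z :=
    (integral_biUnion_finset N (fun _ _ => measurableSet_ball) (disj hN)
      (fun _ _ => (hI.const_mul 27).integrableOn)).symm
  have h3 : ∫ z in ⋃ a ∈ N, ball a (h / 2), 27 * gk w (32 * h) z ≤ ∫ z, 27 * gk w (32 * h) z :=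
    setIntegral_le_integral (hI.const_mul 27)
      (Filter.Eventually.of_forall fun z => mul_nonneg (by norm_num) (gk_nonneg _ _ _))
  have h4 : ∫ z, 27 * gk w (32 * h) z = 27 * ((32 * h) ^ 2 * ∫ u, ker u) := by
    rw [integral_const_mul, gk_integral w hR]
  have h5 : (Real.pi * (h / 2) ^ 2) * ∑ a ∈ N, (32 * h / max (32 * h) ‖w - a‖) ^ 3 ≤
      27 * ((32 * h) ^ 2 * ∫ u, ker u) := by
    rw [Finset.mul_sum]
    calc _ ≤ ∑ a ∈ N, ∫ z in ball a (h / 2), 27 * gk w (32 * h) z := Finset.sum_le_sum h1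
      _ ≤ _ := by rw [h2, ← h4]; exact h3
  have h6 : 27 * ((32 * h) ^ 2 * ∫ u, ker u) =
      (Real.pi * (h / 2) ^ 2) * (27 * 1024 * 4 / Real.pi * ∫ u, ker u) := by
    have := Real.pi_pos
    field_simp
    ring
  rw [h6] at h5
  exact le_of_mul_le_mul_left h5 hv

lemma count {h : ℝ} (hh : 0 < h) {N : Finset ℂ}
    (hN : ∀ a ∈ N, ∀ b ∈ N, a ≠ b → h ≤ ‖a - b‖) (c : ℂ) (ρ : ℝ) (hρ : h ≤ ρ)
    (hc : ∀ a ∈ N, ‖a - c‖ ≤ ρ) : (N.card : ℝ) * h ^ 2 ≤ 9 * ρ ^ 2 := by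
  have h1 : volume.real (⋃ a ∈ N, ball a (h / 2)) = ∑ a ∈ N, volume.real (ball a (h / 2)) :=
    measureReal_biUnion_finset (disj hN) (fun _ _ => measurableSet_ball)
      (fun _ _ => by rw [Complex.volume_ball]; finiteness)
  have h2 : (⋃ a ∈ N, ball a (h / 2)) ⊆ ball c (3 / 2 * ρ) := by
    intro z hz
    simp only [mem_iUnion, exists_prop] at hz
    obtain ⟨a, ha, hz⟩ := hz
    rw [mem_ball, dist_eq_norm] at hz ⊢
    have := hc a ha
    have e : z - c = (z - a) + (a - c) := by ring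
    rw [e]
    calc ‖(z - a) + (a - c)‖ ≤ ‖z - a‖ + ‖a - c‖ := norm_add_le _ _
      _ < _ := by linarith
  have h3 : volume.real (⋃ a ∈ N, ball a (h / 2)) ≤ volume.real (ball c (3 / 2 * ρ)) :=
    measureReal_mono h2 (by rw [Complex.volume_ball]; finiteness)
  rw [h1, vol_ball c (by linarith)] at h3
  simp only [vol_ball _ (by positivity : (0 : ℝ) ≤ h / 2)] at h3
  rw [Finset.sum_const, nsmul_eq_mul] at h3
  have hpi := Real.pi_pos
  have h4 : Real.pi * ((N.card : ℝ) * h ^ 2) ≤ Real.pi * (9 * ρ ^ 2) := by nlinarith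
  exact le_of_mul_le_mul_left h4 hpi

end Pool.Agent.RankOne.T2aux

namespace Pool.Agent.RankOne

open T2aux

theorem T2 : T2_Stmt := by
  have hJ : 0 ≤ ∫ u, ker u := integral_nonneg ker_nonneg
  refine ⟨27 * 1024 * 4 / Real.pi * (∫ u, ker u) + 1, by positivity, ?_⟩
  intro h hh N hN
  refine ⟨fun w => (packing hh hN w).trans (by linarith), fun c ρ hρ hc => count hh hN c ρ hρ hc⟩

end Pool.Agent.RankOne
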