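import Pool.Agent.Lib_helper15.RankOne.DefsT

/-!
# Rank one perturbations, module T3: maximal separated subsets of a finite list
-/

set_option autoImplicit false

namespace Pool.Agent.RankOne

theorem T3 : T3_Stmt := by
  classical
  intro h hh A
  induction A with
  | nil => exact ⟨∅, by simp, by simp, by simp⟩
  | cons a A ih =>
    obtain ⟨N, h1, h2, h3⟩ := ih
    by_cases hab : ∃ b ∈ N, ‖a - b‖ < h
    · refine ⟨N, fun x hx => List.mem_cons_of_mem _ (h1 x hx), h2, ?_⟩
      intro x hx
      rcases List.mem_cons.1 hx with rfl | hx
      · exact hab
      · exact h3 x hx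
    · push Not at hab
      refine ⟨insert a N, ?_, ?_, ?_⟩
      · intro x hx
        rcases Finset.mem_insert.1 hx with rfl | hx
        · exact List.mem_cons_self
        · exact List.mem_cons_of_mem _ (h1 x hx)
      · intro x hx y hy hxy
        rcases Finset.mem_insert.1 hx with hx' | hx'
        · rcases Finset.mem_insert.1 hy with hy' | hy'
          · exact absurd (hx'.trans hy'.symm) hxy
          · rw [hx']; exact hab y hy'
        · rcases Finset.mem_insert.1 hy with hy' | hy'
          · rw [hy', norm_sub_rev]; exact hab x hx'
          · exact h2 x hx' y hy' hxy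
      · intro x hx
        rcases List.mem_cons.1 hx with rfl | hx
        · exact ⟨x, Finset.mem_insert_self _ _, by simpa using hh⟩
        · obtain ⟨b, hb, hb'⟩ := h3 x hx
          exact ⟨b, Finset.mem_insert_of_mem hb, hb'⟩

end Pool.Agent.RankOne
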