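import Pool.Agent.Lib_helper15.RankOne.Defs3
import Pool.Agent.Lib_helper96.RO.ModN2

/-!
# Rank one perturbations, module J2: normal operators are of scalar type
-/

set_option autoImplicit false

open MeasureTheory Metric Set

namespace Pool.Agent.RankOne.J2aux

set_option linter.unusedSectionVars false

variable {H : Type*} [NormedAddCommGroup H] [InnerProductSpace ℂ H] [CompleteSpace H]

/-- the indicator function of the trace of `A` on the spectrum -/
noncomputable def ind (N : H →L[ℂ] H) (A : Set ℂ) : spectrum ℂ N → ℂ :=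
  (Subtype.val ⁻¹' A).indicator (fun _ => 1)

lemma ind_meas (N : H →L[ℂ] H) {A : Set ℂ} (hA : MeasurableSet A) : Measurable (ind N A) :=
  measurable_const.indicator (measurable_subtype_coe hA)

lemma ind_bm (N : H →L[ℂ] H) {A : Set ℂ} (hA : MeasurableSet A) : BM (ind N A) := by
  refine ⟨ind_meas N hA, 1, fun x => ?_⟩
  unfold ind
  by_cases hx : x ∈ (Subtype.val ⁻¹' A : Set (spectrum ℂ N))
  · rw [indicator_of_mem hx]; simp
  · rw [indicator_of_notMem hx]; simp

lemma simple_bm {X : Type*} [MeasurableSpace X] (f : SimpleFunc X ℂ) : BM (f : X → ℂ) :=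
  ⟨f.measurable, f.exists_forall_norm_le⟩

lemma simple_mem (N : H →L[ℂ] H) (Θ : (spectrum ℂ N → ℂ) → (H →L[ℂ] H)) (hΘ : Calculus Θ)
    (f : SimpleFunc (spectrum ℂ N) ℂ) :
    Θ f ∈ Submodule.span ℂ
      {S : H →L[ℂ] H | ∃ A : Set ℂ, MeasurableSet A ∧ S = Θ (ind N A)} := by
  induction f using SimpleFunc.induction with
  | const c hs =>
    rename_i s
    obtain ⟨A, hA, hAs⟩ := hs
    have e : ((SimpleFunc.piecewise s ⟨A, hA, hAs⟩ (SimpleFunc.const _ c)
        (SimpleFunc.const _ 0) : SimpleFunc (spectrum ℂ N) ℂ) : spectrum ℂ N → ℂ) =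
        c • ind N A := by
      funext x
      by_cases hx : x ∈ s
      · have hx' : x ∈ (Subtype.val ⁻¹' A : Set (spectrum ℂ N)) := by rw [hAs]; exact hx
        simp [SimpleFunc.coe_piecewise, hx, ind, indicator_of_mem hx']
      · have hx' : x ∉ (Subtype.val ⁻¹' A : Set (spectrum ℂ N)) := by rw [hAs]; exact hx
        simp [SimpleFunc.coe_piecewise, hx, ind, indicator_of_notMem hx']
    rw [e, hΘ.smul c _ (ind_bm N hA)]
    exact Submodule.smul_mem _ _ (Submodule.subset_span ⟨A, hA, rfl⟩)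
  | add _ hf hg =>
    rename_i f g _
    rw [SimpleFunc.coe_add, hΘ.add _ _ (simple_bm f) (simple_bm g)]
    exact Submodule.add_mem _ hf hg

/-- uniform approximation of the coordinate on the spectrum by simple functions -/
lemma exists_simple (N : H →L[ℂ] H) {ε : ℝ} (hε : 0 < ε) :
    ∃ f : SimpleFunc (spectrum ℂ N) ℂ, ∀ z : spectrum ℂ N, ‖(z : ℂ) - f z‖ ≤ ε := by
  obtain ⟨t, _, htf, hcov⟩ := finite_cover_balls_of_compact (spectrum.isCompact (𝕜 := ℂ) N) hε
  set l : List ℂ := htf.toFinset.toList with hl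
  let e : ℕ → ℂ := fun k => l.getD k 0
  refine ⟨(SimpleFunc.nearestPt e l.length).comp Subtype.val measurable_subtype_coe, ?_⟩
  intro z
  have hz := hcov z.2
  simp only [mem_iUnion, exists_prop] at hz
  obtain ⟨c, hc, hzc⟩ := hz
  have hcl : c ∈ l := by rw [hl]; simpa using hc
  obtain ⟨k, hk, hkc⟩ := List.getElem_of_mem hcl
  have hek : e k = c := by
    simp only [e]
    rw [List.getD_eq_getElem _ _ hk, hkc]
  have h1 := SimpleFunc.edist_nearestPt_le e (z : ℂ) (le_of_lt hk : k ≤ l.length)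
  rw [hek] at h1
  have h2 : dist (SimpleFunc.nearestPt e l.length (z : ℂ)) (z : ℂ) ≤ dist c (z : ℂ) := by
    rw [edist_dist, edist_dist] at h1
    exact (ENNReal.ofReal_le_ofReal_iff dist_nonneg).1 h1
  rw [SimpleFunc.coe_comp, Function.comp_apply, ← dist_eq_norm, dist_comm]
  rw [mem_ball, dist_comm] at hzc
  linarith

theorem J2_of_N.{u} (hNs : N_Stmt.{u}) : J2_Stmt.{u} := by
  intro H _ _ _ N hN
  obtain ⟨Θ, hΘ, hΘN⟩ := hNs H N hN
  refine ⟨fun A => Θ (ind N A), ⟨?_, ?_, ?_⟩, ?_⟩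
  · have : ind N (Set.univ : Set ℂ) = 1 := by
      funext x; simp [ind]
    change Θ (ind N Set.univ) = 1
    rw [this, hΘ.one]
  · intro A B hA hB
    have : ind N (A ∩ B) = ind N A * ind N B := by
      funext x
      unfold ind
      by_cases h1 : (x : ℂ) ∈ A <;> by_cases h2 : (x : ℂ) ∈ B <;>
        simp [indicator, h1, h2]
    change Θ (ind N (A ∩ B)) = Θ (ind N A) * Θ (ind N B)
    rw [this, hΘ.mul _ _ (ind_bm N hA) (ind_bm N hB)]
  · intro A hA hdis x ℓ
    obtain ⟨m, c, hm, hc, hc1, hint⟩ := hΘ.meas x ℓ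
    have hcint : Integrable c m := by
      refine Integrable.of_bound (C := 1) hc.aestronglyMeasurable
        (Filter.Eventually.of_forall fun y => (hc1 y).le)
    have key : ∀ B : Set ℂ, MeasurableSet B →
        ℓ (Θ (ind N B) x) = ∫ y in (Subtype.val ⁻¹' B : Set (spectrum ℂ N)), c y ∂m := by
      intro B hB
      rw [hint _ (ind_bm N hB), ← integral_indicator (measurable_subtype_coe hB)]
      refine integral_congr_ae (Filter.Eventually.of_forall fun y => ?_)
      unfold ind
      by_cases hy : y ∈ (Subtype.val ⁻¹' B : Set (spectrum ℂ N))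
      · simp only [indicator_of_mem hy, one_mul]
      · simp only [indicator_of_notMem hy, zero_mul]
    have h1 : HasSum (fun n => ∫ y in (Subtype.val ⁻¹' (A n) : Set (spectrum ℂ N)), c y ∂m)
        (∫ y in ⋃ n, (Subtype.val ⁻¹' (A n) : Set (spectrum ℂ N)), c y ∂m) := by
      refine hasSum_integral_iUnion (fun n => measurable_subtype_coe (hA n)) ?_
        hcint.integrableOn
      intro i j hij
      exact (hdis hij).preimage _
    have h2 : (Subtype.val ⁻¹' (⋃ n, A n) : Set (spectrum ℂ N)) =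
        ⋃ n, (Subtype.val ⁻¹' (A n) : Set (spectrum ℂ N)) := preimage_iUnion
    simp only [key _ (hA _), key _ (MeasurableSet.iUnion hA), h2]
    exact h1
  · rw [Metric.mem_closure_iff]
    intro ε hε
    obtain ⟨C, hC⟩ := hΘ.bdd
    have hpos : 0 < ε / (|C| + 1) := by positivity
    obtain ⟨f, hf⟩ := exists_simple N (ε := ε / (|C| + 1) / 2) (by positivity)
    refine ⟨Θ f, simple_mem N Θ hΘ f, ?_⟩
    have hfb := simple_bm f
    have hcb : BM (fun z : spectrum ℂ N => (z : ℂ)) := by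
      refine ⟨measurable_subtype_coe, ‖N‖ * ‖(1 : H →L[ℂ] H)‖, fun z => ?_⟩
      exact spectrum.norm_le_norm_mul_of_mem z.2
    have e : (fun z : spectrum ℂ N => (z : ℂ)) =
        ((fun z : spectrum ℂ N => (z : ℂ)) - (f : spectrum ℂ N → ℂ)) + (f : spectrum ℂ N → ℂ) := by
      funext z; simp
    have hdb : BM ((fun z : spectrum ℂ N => (z : ℂ)) - (f : spectrum ℂ N → ℂ)) :=
      ⟨measurable_subtype_coe.sub f.measurable, _, hf⟩
    have h1 : N = Θ ((fun z : spectrum ℂ N => (z : ℂ)) - (f : spectrum ℂ N → ℂ)) + Θ f := by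
      rw [← hΘ.add _ _ hdb hfb, ← e, hΘN]
    have h2 : ‖Θ ((fun z : spectrum ℂ N => (z : ℂ)) - (f : spectrum ℂ N → ℂ))‖ ≤
        C * (ε / (|C| + 1) / 2) := hC _ hdb.1 _ hf
    rw [dist_eq_norm]
    have h3 : N - Θ f = Θ ((fun z : spectrum ℂ N => (z : ℂ)) - (f : spectrum ℂ N → ℂ)) := by
      exact sub_eq_of_eq_add h1
    rw [h3]
    refine lt_of_le_of_lt h2 ?_
    have h4 : C * (ε / (|C| + 1) / 2) ≤ |C| * (ε / (|C| + 1) / 2) :=
      mul_le_mul_of_nonneg_right (le_abs_self C) (by positivity)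
    have h5 : |C| * (ε / (|C| + 1) / 2) < ε := by
      have : |C| * (ε / (|C| + 1) / 2) = (|C| / (|C| + 1)) * (ε / 2) := by ring
      rw [this]
      have h6 : |C| / (|C| + 1) ≤ 1 := by
        rw [div_le_one (by positivity)]; linarith
      have h7 : 0 < ε / 2 := by positivity
      nlinarith [abs_nonneg C]
    linarith

end Pool.Agent.RankOne.J2aux

namespace Pool.Agent.RankOne

theorem J2.{u} : J2_Stmt.{u} := J2aux.J2_of_N N

end Pool.Agent.RankOne
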